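import Pool.Agent.Helper60.GC9.ClaimT

/-!
# Symplectic eigenbases which are standard on the torus blocks
-/

set_option autoImplicit false

namespace Pool.Agent.Helper60.GC9

open Function Polynomial Pool.Agent.Helper48.GC8

section DiagT

variable {g : ℕ} {κ : Type} [DecidableEq κ]

/-- A symplectic eigenbasis, adapted to the blocks; on a torus block each vector is a multiple of
the standard one. -/
structure SET (col : Fin g → κ) (tor : Finset κ) (M : Matrix (L2 g) (L2 g) ℂ)
    (b : L2 g → (L2 g → ℂ)) (lam : L2 g → ℂ) : Prop where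
  se : SE col M b lam
  tor : ∀ r s, s ≠ r → col (pr r) ∈ tor → b r s = 0

lemma exists_SET {col : Fin g → κ} {tor : Finset κ} {q : ℂ} (hq : q ≠ 0)
    {M : Matrix (L2 g) (L2 g) ℂ}
    (hM : SimT col tor q M) {d : ℕ}
    (b0 : Module.Basis (Fin d) ℂ (L2 g → ℂ)) (l0 : Fin d → ℂ)
    (hb0 : ∀ i, M.mulVec (b0 i) = l0 i • b0 i) :
    ∃ b lam, SET col tor M b lam ∧ ∀ r, col (pr r) ∈ tor → lam r = M r r := by
  classical
  obtain ⟨b, lam, h⟩ := exists_SE hq hM.sim b0 l0 hb0
  refine ⟨fun r => if col (pr r) ∈ tor then Pi.single r 1 else b r,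
    fun r => if col (pr r) ∈ tor then M r r else lam r, ⟨⟨?_, ?_, ?_⟩, ?_⟩, ?_⟩
  · intro r s
    have hsing : ∀ t : L2 g, Bk col (col (pr t)) (Pi.single t (1 : ℂ)) := by
      intro t x hx
      rw [Pi.single_eq_of_ne]
      rintro rfl
      exact hx rfl
    by_cases hr : col (pr r) ∈ tor <;> by_cases hs : col (pr s) ∈ tor
    · simp only [if_pos hr, if_pos hs]
      rw [Matrix.toBilin'_single]
    · simp only [if_pos hr, if_neg hs]
      have hne : col (pr r) ≠ col (pr s) := fun h' => hs (h' ▸ hr)
      rw [B_blk hne (hsing r) (h.blk s), J_zero]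
      exact fun h' => hne (congrArg col h')
    · simp only [if_neg hr, if_pos hs]
      have hne : col (pr r) ≠ col (pr s) := fun h' => hr (h' ▸ hs)
      rw [B_blk hne (h.blk r) (hsing s), J_zero]
      exact fun h' => hne (congrArg col h')
    · simp only [if_neg hr, if_neg hs]
      exact h.form r s
  · intro r
    by_cases hr : col (pr r) ∈ tor
    · simp only [if_pos hr]
      funext s
      rw [Matrix.mulVec_single_one, Pi.smul_apply, smul_eq_mul, Matrix.col_apply]
      by_cases hs : s = r
      · subst hs; simp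
      · rw [Pi.single_eq_of_ne hs, hM.diag' s r hs hr, mul_zero]
    · simp only [if_neg hr]
      exact h.eig r
  · intro r
    by_cases hr : col (pr r) ∈ tor
    · simp only [if_pos hr]
      intro x hx
      rw [Pi.single_eq_of_ne]
      rintro rfl
      exact hx rfl
    · simp only [if_neg hr]
      exact h.blk r
  · intro r s hsr hr
    simp only [if_pos hr]
    exact Pi.single_eq_of_ne hsr _
  · intro r hr
    simp only [if_pos hr]

omit [DecidableEq κ] in
/-- Signed permutations of a symplectic eigenbasis, trivial on the torus blocks. -/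
lemma SET.perm {col : Fin g → κ} {tor : Finset κ} {M : Matrix (L2 g) (L2 g) ℂ}
    {b : L2 g → (L2 g → ℂ)}
    {lam : L2 g → ℂ} (h : SET col tor M b lam) (ε : Fin g → L2 g)
    (hε : Injective (fun i => pr (ε i)))
    (hcol : ∀ i, col (pr (ε i)) = col i) (ht : ∀ i, col i ∈ tor → ε i = Sum.inl i) :
    ∃ b' lam', SET col tor M b' lam' ∧ (∀ i, lam' (Sum.inl i) = lam (ε i)) ∧
      ∀ r, col (pr r) ∈ tor → lam' r = lam r := by
  have hne : ∀ i j, i ≠ j → pr (ε i) ≠ pr (ε j) := fun i j hij h => hij (hε h)
  refine ⟨Sum.elim (fun i => b (ε i)) (fun i => Sum.elim (fun m => b (Sum.inr m))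
    (fun m => - b (Sum.inl m)) (ε i)), Sum.elim (fun i => lam (ε i)) (fun i => lam (ε i).swap),
    ⟨⟨?_, ?_, ?_⟩, ?_⟩, fun i => rfl, ?_⟩
  · intro r s
    rcases r with i | i <;> rcases s with j | j
    · rw [J_ll, Sum.elim_inl, Sum.elim_inl, h.se.form]
      by_cases hij : i = j
      · subst hij
        rcases ε i with m | m
        · exact J_ll _ _
        · exact J_rr _ _
      · exact J_zero (hne i j hij)
    · rw [J_lr, Sum.elim_inl, Sum.elim_inr]
      by_cases hij : i = j
      · subst hij
        rw [if_pos rfl]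
        rcases ε i with m | m
        · rw [Sum.elim_inl, h.se.form, J_lr, if_pos rfl]
        · rw [Sum.elim_inr, map_neg, h.se.form, J_rl, if_pos rfl]
      · rw [if_neg hij]
        have h1 := hne i j hij
        rcases hi : ε i with m | m <;> rcases hj : ε j with n | n <;> rw [hi, hj] at h1 <;>
          simp only [pr, Sum.elim_inl, Sum.elim_inr, id] at h1 ⊢
        · rw [h.se.form, J_lr, if_neg h1]
        · rw [map_neg, h.se.form, J_ll, neg_zero]
        · rw [h.se.form, J_rr]
        · rw [map_neg, h.se.form, J_rl, if_neg h1, neg_zero]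
    · rw [J_rl, Sum.elim_inl, Sum.elim_inr]
      by_cases hij : i = j
      · subst hij
        rw [if_pos rfl]
        rcases ε i with m | m
        · rw [Sum.elim_inl, h.se.form, J_rl, if_pos rfl]
        · rw [Sum.elim_inr, map_neg, LinearMap.neg_apply, h.se.form, J_lr, if_pos rfl, neg_neg]
      · rw [if_neg hij]
        have h1 := hne i j hij
        rcases hi : ε i with m | m <;> rcases hj : ε j with n | n <;> rw [hi, hj] at h1 <;>
          simp only [pr, Sum.elim_inl, Sum.elim_inr, id] at h1 ⊢
        · rw [h.se.form, J_rl, if_neg h1]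
        · rw [h.se.form, J_rr]
        · rw [map_neg, LinearMap.neg_apply, h.se.form, J_ll, neg_zero]
        · rw [map_neg, LinearMap.neg_apply, h.se.form, J_lr, if_neg h1, neg_zero]
    · rw [J_rr, Sum.elim_inr, Sum.elim_inr]
      by_cases hij : i = j
      · subst hij
        exact B_self _
      · have h1 := hne i j hij
        rcases hi : ε i with m | m <;> rcases hj : ε j with n | n <;> rw [hi, hj] at h1 <;>
          simp only [pr, Sum.elim_inl, Sum.elim_inr, id] at h1 ⊢
        · rw [h.se.form, J_rr]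
        · rw [map_neg, h.se.form, J_rl, if_neg h1, neg_zero]
        · rw [map_neg, LinearMap.neg_apply, h.se.form, J_lr, if_neg h1, neg_zero]
        · rw [map_neg, map_neg, LinearMap.neg_apply, h.se.form, J_ll]; simp
  · intro r
    rcases r with i | i
    · exact h.se.eig _
    · simp only [Sum.elim_inr]
      rcases hi : ε i with m | m
      · simp only [Sum.elim_inl, Sum.swap_inl]
        exact h.se.eig _
      · simp only [Sum.elim_inr, Sum.swap_inr]
        rw [Matrix.mulVec_neg, h.se.eig, smul_neg]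
  · intro r
    rcases r with i | i
    · have h1 := h.se.blk (ε i)
      rw [hcol i] at h1
      exact h1
    · have h1 := hcol i
      simp only [Sum.elim_inr]
      rcases hi : ε i with m | m
      · rw [hi] at h1
        have h2 := h.se.blk (Sum.inr m)
        intro s hs
        rw [Sum.elim_inl]
        refine h2 s ?_
        intro h3
        exact hs (h3.trans h1)
      · rw [hi] at h1
        have h2 := h.se.blk (Sum.inl m)
        intro s hs
        rw [Sum.elim_inr, Pi.neg_apply, h2 s ?_, neg_zero]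
        intro h3
        exact hs (h3.trans h1)
  · intro r s hsr hr
    rcases r with i | i
    · rw [Sum.elim_inl, ht i hr]
      exact h.tor _ _ hsr hr
    · rw [Sum.elim_inr, ht i hr, Sum.elim_inl]
      exact h.tor _ _ hsr hr
  · intro r hr
    rcases r with i | i
    · rw [Sum.elim_inl, ht i hr]
    · rw [Sum.elim_inr, ht i hr, Sum.swap_inl]

lemma SET.sim {col : Fin g → κ} {tor : Finset κ} {M : Matrix (L2 g) (L2 g) ℂ}
    {b : L2 g → (L2 g → ℂ)}
    {lam : L2 g → ℂ} (h : SET col tor M b lam) : SimT col tor 1 (SE.mat b) := by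
  refine ⟨h.se.sim, fun r s hrs hr => ?_⟩
  by_cases hs : col (pr s) ∈ tor
  · exact h.tor s r hrs hs
  · exact h.se.blk s r (fun h' => hs (h' ▸ hr))

end DiagT

section Transport

variable {ι : Type} [Fintype ι] [DecidableEq ι] {g : ℕ} {κ : Type} [DecidableEq κ]

/-- The eigenvalues seen by the support of an element of a good stable subspace. -/
lemma integral_of_SET {col : Fin g → κ} {tor : Finset κ}
    {𝓕 : Set (ℕ × Matrix (L2 g) (L2 g) ℂ)} {R : Finset ι}
    {t : ℕ} {U : Submodule ℂ (Ten ι (L2 g))} (hst : StabG (SimT col tor) R U)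
    (hgood : Good 𝓕 R t U)
    {z : ℕ × Matrix (L2 g) (L2 g) ℂ} (hz : z ∈ 𝓕) {b : L2 g → (L2 g → ℂ)} {lam : L2 g → ℂ}
    (h : SET col tor z.2 b lam) {u : Ten ι (L2 g)} (hu : u ∈ U) {x : ι → L2 g} (hx : u x ≠ 0) :
    IsIntegral ℤ ((∏ k ∈ R, lam (x k)) / (z.1 : ℂ) ^ t) := by
  obtain ⟨Q, hQ1, hQ2⟩ := hgood z hz
  apply hQ1
  have h1 := hQ2 _ (hst 1 (SE.mat b) one_ne_zero h.sim u hu)
  have h2 := aeval_semiconj (rho R (SE.mat b)) (rho R (Matrix.diagonal lam)) (rho R z.2)
    (fun v => by
      rw [← Module.End.mul_apply, ← Module.End.mul_apply, ← rho_mul, ← rho_mul,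
        h.se.mul_mat]) Q u
  rw [h1] at h2
  obtain ⟨S', hS'⟩ := h.se.exists_inv
  have h3 : aeval (rho R (Matrix.diagonal lam)) Q u = 0 := by
    have h4 := congrArg (rho R S') h2
    rw [← Module.End.mul_apply, ← rho_mul, hS', rho_one, map_zero] at h4
    exact h4
  let ev : Ten ι (L2 g) →ₗ[ℂ] ℂ := LinearMap.proj x
  have h4 := aeval_semiconj ev (rho R (Matrix.diagonal lam))
    (algebraMap ℂ (Module.End ℂ ℂ) (∏ k ∈ R, lam (x k))) (fun v => by
      simp only [ev, LinearMap.proj_apply]
      rw [rho_diag]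
      simp) Q u
  rw [h3, map_zero, aeval_algebraMap_apply] at h4
  have h5 : eval (∏ k ∈ R, lam (x k)) Q * u x = 0 := by
    have h6 := h4.symm
    simpa [ev, Polynomial.aeval_def] using h6
  rw [mul_eq_zero] at h5
  exact h5.resolve_right hx

end Transport

end Pool.Agent.Helper60.GC9
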