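import Pool.Agent.Helper60.GC9.WeylT

/-!
# The induction for an abstract group, and the group with torus blocks
-/

set_option autoImplicit false

namespace Pool.Agent.Helper60.GC9

open Function Polynomial Pool.Agent.Helper48.GC8

section Abstract

variable {ι : Type} [Fintype ι] [DecidableEq ι] {g : ℕ} {κ : Type}

/-- Stability under all `X` with `G c X`. -/
def StabG (G : ℂ → Matrix (L2 g) (L2 g) ℂ → Prop) (R : Finset ι)
    (U : Submodule ℂ (Ten ι (L2 g))) : Prop :=
  ∀ (c : ℂ) (X : Matrix (L2 g) (L2 g) ℂ), c ≠ 0 → G c X → ∀ u ∈ U, rho R X u ∈ U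

variable {G : ℂ → Matrix (L2 g) (L2 g) ℂ → Prop} {J : κ → Matrix (L2 g) (L2 g) ℂ}

lemma Nv_stabG (hJ' : ∀ c X, c ≠ 0 → G c X → ∀ a, X * J a * X.transpose = c • J a)
    (ν : ℕ) (R : Finset ι) : StabG G R (Nv J ν R) := by
  intro c X hc hX u hu
  exact rho_Nv _ X (fun a => hJ' c X hc hX a) ν R hu

lemma perp_stabG (hG : ∀ c X, c ≠ 0 → G c X → G (star c) X.conjTranspose)
    {R : Finset ι} {N : Submodule ℂ (Ten ι (L2 g))}
    (h : StabG G R N) : StabG G R (perp N) := by
  intro c X hc hX v hv n hn
  rw [herm_rho]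
  exact hv _ (h (star c) X.conjTranspose (by simpa using hc) (hG c X hc hX) n hn)

lemma sup_stabG {R : Finset ι} {U N : Submodule ℂ (Ten ι (L2 g))}
    (h1 : StabG G R U) (h2 : StabG G R N) : StabG G R (U ⊔ N) := by
  intro c X hc hX v hv
  obtain ⟨u, hu, n, hn, rfl⟩ := Submodule.mem_sup.1 hv
  rw [map_add]
  exact Submodule.add_mem_sup (h1 c X hc hX u hu) (h2 c X hc hX n hn)

lemma claimG (hG : ∀ c X, c ≠ 0 → G c X → G (star c) X.conjTranspose)
    (hJ : ∀ c X, G c X → ∀ a, X.transpose * J a * X = c • J a)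
    (hJ' : ∀ c X, c ≠ 0 → G c X → ∀ a, X * J a * X.transpose = c • J a)
    (hJs : ∀ a r s, star (J a r s) = J a r s)
    (𝓕 : Set (ℕ × Matrix (L2 g) (L2 g) ℂ))
    (h𝓕 : ∀ z ∈ 𝓕, (z.1 : ℂ) ≠ 0 ∧ G z.1 z.2)
    (w : ℕ)
    (HT : ∀ (t : ℕ) (R : Finset ι) (U : Submodule ℂ (Ten ι (L2 g))), 1 ≤ t →
      R.card = w + 2 * t → StabG G R U → Good 𝓕 R t U →
      (∀ u ∈ U, ∀ c, ∀ a ∈ R, ∀ b ∈ R, a ≠ b → con (J c) a b u = 0) →
      ∀ u ∈ U, u = 0)
    (ν : ℕ) : ∀ (R : Finset ι) (U : Submodule ℂ (Ten ι (L2 g))), R.card = w + 2 * ν →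
      U ≤ dep R → StabG G R U → Good 𝓕 R ν U → U ≤ Nv J ν R := by
  induction ν with
  | zero => intro R U _ h _ _; exact h
  | succ ν ih =>
    intro R U hR hdep hst hgood
    set N := Nv J (ν + 1) R with hN
    have hNst : StabG G R N := Nv_stabG hJ' _ _
    have hNd : N ≤ dep R := Nv_le_dep _ _ _
    set U1 := (U ⊔ N) ⊓ perp N with hU1
    have hU1st : StabG G R U1 := by
      intro c X hc hX v hv
      exact ⟨sup_stabG hst hNst c X hc hX v hv.1, perp_stabG hG hNst c X hc hX v hv.2⟩
    have hU1dep : U1 ≤ dep R := fun v hv => (sup_le hdep hNd) hv.1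
    have hU1good : Good 𝓕 R (ν + 1) U1 := by
      intro z hz
      obtain ⟨Q, hQ1, hQ2⟩ := hgood z hz
      refine ⟨Q, hQ1, ?_⟩
      intro v hv
      obtain ⟨hv1, hv2⟩ := hv
      have h1 : aeval (rho R z.2) Q v ∈ perp N :=
        aeval_mem _ _ (fun v hv => perp_stabG hG hNst _ _ (h𝓕 z hz).1 (h𝓕 z hz).2 v hv) Q hv2
      obtain ⟨u, hu, n, hn, rfl⟩ := Submodule.mem_sup.1 hv1
      have h2 : aeval (rho R z.2) Q (u + n) ∈ N := by
        rw [map_add, hQ2 u hu, zero_add]
        exact aeval_mem _ _ (fun v hv => hNst _ _ (h𝓕 z hz).1 (h𝓕 z hz).2 v hv) Q hn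
      exact eq_zero_of_mem_perp h2 h1
    have hcon : ∀ u ∈ U1, ∀ c, ∀ a ∈ R, ∀ b ∈ R, a ≠ b → con (J c) a b u = 0 := by
      intro u hu d a ha b hb hab
      have hsub : ({a, b} : Finset ι) ⊆ R := by
        intro x hx
        simp only [Finset.mem_insert, Finset.mem_singleton] at hx
        rcases hx with rfl | rfl
        · exact ha
        · exact hb
      have hcard : (R \ {a, b}).card = w + 2 * ν := by
        have h1 := Finset.card_sdiff_add_card_eq_card hsub
        rw [Finset.card_pair hab, hR] at h1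
        omega
      have h1 := ih (R \ {a, b}) (U1.map (con (J d) a b)) hcard (by
          rintro _ ⟨v, hv, rfl⟩
          exact con_dep _ hab (hU1dep hv)) (by
          rintro c X hc hX _ ⟨v, hv, rfl⟩
          refine ⟨c⁻¹ • rho R X v, U1.smul_mem _ (hU1st c X hc hX v hv), ?_⟩
          rw [map_smul, con_rho R _ X (hJ c X hX d) ha hb hab, smul_smul, inv_mul_cancel₀ hc,
            one_smul]) (by
          intro z hz
          obtain ⟨Q, hQ1, hQ2⟩ := hU1good z hz
          refine ⟨Q.comp (C (z.1 : ℂ) * X), ?_, ?_⟩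
          · intro β hβ
            have h2 : Q.IsRoot ((z.1 : ℂ) * β) := by
              simpa [Polynomial.IsRoot, eval_comp] using hβ
            have h3 := hQ1 _ h2
            have h4 : (z.1 : ℂ) * β / (z.1 : ℂ) ^ (ν + 1) = β / (z.1 : ℂ) ^ ν := by
              have := (h𝓕 z hz).1
              rw [pow_succ]
              field_simp
            rwa [h4] at h3
          · rintro _ ⟨v, hv, rfl⟩
            rw [← aeval_smul_end]
            rw [← aeval_semiconj (con (J d) a b) (rho R z.2) _ (fun v => by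
              rw [con_rho R _ _ (hJ _ _ (h𝓕 z hz).2 d) ha hb hab]; rfl)]
            rw [hQ2 v hv, map_zero])
      have h2 : con (J d) a b u ∈ Nv J ν (R \ {a, b}) :=
        h1 ⟨u, hu, rfl⟩
      refine eq_zero_of_mem_perp h2 ?_
      intro n hn
      have hnd := Nv_le_dep _ _ _ hn
      rw [herm_con _ (hJs d) hab (fun x r => hnd a (by simp) x r)
        (fun x r => hnd b (by simp) x r)]
      have h3 : ins (J d) a b n ∈ N := by
        rw [hN]
        exact Submodule.subset_span ⟨d, a, ha, b, hb, hab, n, hn, rfl⟩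
      rw [hu.2 _ h3, mul_zero]
    have hzero := HT (ν + 1) R U1 (by omega) hR hU1st hU1good hcon
    intro u hu
    obtain ⟨n, hn, hun⟩ := exists_decomp N u
    have h1 : u - n ∈ U1 :=
      ⟨Submodule.sub_mem _ (Submodule.mem_sup_left hu) (Submodule.mem_sup_right hn), hun⟩
    have h2 := hzero _ h1
    rw [sub_eq_zero] at h2
    rw [h2]; exact hn

end Abstract

section Torus

variable {g : ℕ} {κ : Type} [DecidableEq κ]

/-- Symplectic similitudes which respect the blocks and are diagonal on the torus blocks. -/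
structure SimT (col : Fin g → κ) (tor : Finset κ) (m : ℂ) (X : Matrix (L2 g) (L2 g) ℂ) :
    Prop where
  sim : Sim col m X
  diag : ∀ r s, r ≠ s → col (pr r) ∈ tor → X r s = 0

lemma SimT.diag' {col : Fin g → κ} {tor : Finset κ} {m : ℂ} {X : Matrix (L2 g) (L2 g) ℂ}
    (h : SimT col tor m X) (r s : L2 g) (hrs : r ≠ s) (hs : col (pr s) ∈ tor) : X r s = 0 := by
  by_cases hc : col (pr r) = col (pr s)
  · exact h.diag r s hrs (hc ▸ hs)
  · exact h.sim.blk r s hc

lemma SimT.mul_swap {col : Fin g → κ} {tor : Finset κ} {m : ℂ} {X : Matrix (L2 g) (L2 g) ℂ}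
    (h : SimT col tor m X) (r : L2 g) (hr : col (pr r) ∈ tor) : X r r * X r.swap r.swap = m := by
  have key : ∀ i : Fin g, col i ∈ tor →
      X (Sum.inl i) (Sum.inl i) * X (Sum.inr i) (Sum.inr i) = m := by
    intro i hi
    have h1 := congrFun (congrFun h.sim.form (Sum.inr i)) (Sum.inl i)
    rw [Matrix.smul_apply, J_rl, if_pos rfl, smul_eq_mul, mul_one, Matrix.mul_apply] at h1
    rw [Finset.sum_eq_single (Sum.inl i)] at h1
    · rw [Matrix.mul_apply, Finset.sum_eq_single (Sum.inr i)] at h1
      · rw [Matrix.transpose_apply, J_rl, if_pos rfl, mul_one] at h1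
        rw [← h1]; ring
      · intro s _ hs
        rw [Matrix.transpose_apply, h.diag' _ _ hs (by exact hi), zero_mul]
      · intro h2; exact absurd (Finset.mem_univ _) h2
    · intro s _ hs
      rw [h.diag' _ _ hs (by exact hi), mul_zero]
    · intro h2; exact absurd (Finset.mem_univ _) h2
  rcases r with i | i
  · exact key i hr
  · rw [Sum.swap_inr, mul_comm]; exact key i hr

/-- The forms: `JB c` and the two matrix units in the torus blocks. -/
noncomputable def FT (col : Fin g → κ) (tor : Finset κ) :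
    κ ⊕ L2 g → Matrix (L2 g) (L2 g) ℂ :=
  Sum.elim (JB col) (fun r => if col (pr r) ∈ tor then Matrix.single r r.swap 1 else 0)

lemma FT_star (col : Fin g → κ) (tor : Finset κ) (a : κ ⊕ L2 g) (r s : L2 g) :
    star (FT col tor a r s) = FT col tor a r s := by
  rcases a with c | t
  · exact JB_star col c r s
  · simp only [FT, Sum.elim_inr]
    split_ifs
    · rw [Matrix.single_apply]
      split_ifs <;> simp
    · simp

lemma SimT.ft {col : Fin g → κ} {tor : Finset κ} {m : ℂ} {X : Matrix (L2 g) (L2 g) ℂ}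
    (h : SimT col tor m X) (a : κ ⊕ L2 g) :
    X.transpose * FT col tor a * X = m • FT col tor a := by
  rcases a with c | t
  · exact h.sim.jb c
  · simp only [FT, Sum.elim_inr]
    split_ifs with ht
    · have ht' : col (pr t.swap) ∈ tor := by rw [pr_swap]; exact ht
      ext r s
      rw [Matrix.smul_apply, smul_eq_mul, Matrix.mul_apply, Finset.sum_eq_single t.swap,
        Matrix.mul_apply, Finset.sum_eq_single t, Matrix.single_apply_same,
        Matrix.transpose_apply, mul_one, Matrix.single_apply]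
      · by_cases hr : t = r
        · by_cases hs : t.swap = s
          · rw [if_pos ⟨hr, hs⟩, mul_one, ← hr, ← hs]
            exact h.mul_swap t ht
          · rw [if_neg (fun hh => hs hh.2), mul_zero, h.diag _ _ hs ht', mul_zero]
        · rw [if_neg (fun hh => hr hh.1), mul_zero, h.diag _ _ hr ht, zero_mul]
      · intro b _ hb
        rw [Matrix.single_apply_of_ne, mul_zero]
        exact fun hh => hb hh.1.symm
      · intro h2; exact absurd (Finset.mem_univ _) h2
      · intro b _ hb
        rw [Matrix.mul_apply, Finset.sum_eq_zero, zero_mul]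
        intro a _
        rw [Matrix.single_apply_of_ne, mul_zero]
        exact fun hh => hb hh.2.symm
      · intro h2; exact absurd (Finset.mem_univ _) h2
    · simp

lemma SimT.ft' {col : Fin g → κ} {tor : Finset κ} {m : ℂ} (hm : m ≠ 0)
    {X : Matrix (L2 g) (L2 g) ℂ}
    (h : SimT col tor m X) (a : κ ⊕ L2 g) :
    X * FT col tor a * X.transpose = m • FT col tor a := by
  rcases a with c | t
  · exact h.sim.jb' hm c
  · simp only [FT, Sum.elim_inr]
    split_ifs with ht
    · have ht' : col (pr t.swap) ∈ tor := by rw [pr_swap]; exact ht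
      ext r s
      rw [Matrix.smul_apply, smul_eq_mul, Matrix.mul_apply, Finset.sum_eq_single t.swap,
        Matrix.mul_apply, Finset.sum_eq_single t, Matrix.single_apply_same,
        Matrix.transpose_apply, mul_one, Matrix.single_apply]
      · by_cases hr : t = r
        · by_cases hs : t.swap = s
          · rw [if_pos ⟨hr, hs⟩, mul_one, ← hr, ← hs]
            exact h.mul_swap t ht
          · rw [if_neg (fun hh => hs hh.2), mul_zero, h.diag' _ _ (Ne.symm hs) ht', mul_zero]
        · rw [if_neg (fun hh => hr hh.1), mul_zero, h.diag' _ _ (Ne.symm hr) ht, zero_mul]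
      · intro b _ hb
        rw [Matrix.single_apply_of_ne, mul_zero]
        exact fun hh => hb hh.1.symm
      · intro h2; exact absurd (Finset.mem_univ _) h2
      · intro b _ hb
        rw [Matrix.mul_apply, Finset.sum_eq_zero, zero_mul]
        intro a _
        rw [Matrix.single_apply_of_ne, mul_zero]
        exact fun hh => hb hh.2.symm
      · intro h2; exact absurd (Finset.mem_univ _) h2
    · simp

omit [DecidableEq κ] in
lemma SimT.conjTranspose {col : Fin g → κ} {tor : Finset κ} {c : ℂ} (hc : c ≠ 0)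
    {X : Matrix (L2 g) (L2 g) ℂ}
    (h : SimT col tor c X) : SimT col tor (star c) X.conjTranspose := by
  classical
  refine ⟨h.sim.conjTranspose hc, fun r s hrs hr => ?_⟩
  rw [Matrix.conjTranspose_apply, h.diag' s r (Ne.symm hrs) hr, star_zero]

end Torus

end Pool.Agent.Helper60.GC9
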